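import Pool.Agent.Q120.GL.Stm

/-!
# Job FIB of the project GL (Goldbach's problem in the sieved models of all levels)
-/

set_option autoImplicit false

namespace Pool.Agent.Q84.GL

open Finset Filter Topology MeasureTheory Pool.Agent.Q120.GM Pool.Agent.Q120.CL Pool.Agent.Q120.MG Pool.Agent.Q120.HL
open Pool.Agent.Q120.GL

/-- The minimum in `pr` is not `1` for large `k`. -/
theorem hqz {z : ℕ → ℕ} (hz : Tendsto (fun k : ℕ => Real.log (z k) / k) atTop (𝓝 0)) :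
    ∀ᶠ k : ℕ in atTop, 1 ≤ Vf (z k) * (k * Real.log 2) := by
  have hl2 : 0 < Real.log 2 := Real.log_pos (by norm_num)
  have h1 : ∀ᶠ w : ℕ in atTop, (1 : ℝ) / 2 < Vf w * Real.log w := Vf_lim.eventually_const_lt exp_gamma
  obtain ⟨W, hW⟩ := eventually_atTop.1 h1
  have h2 : ∀ᶠ k : ℕ in atTop, Real.log (z k) / k < Real.log 2 / 2 := hz.eventually_lt_const (by linarith)
  filter_upwards [h2, hcast.eventually_ge_atTop (((W : ℝ) + 1) / Real.log 2), eventually_gt_atTop 0] with k h3 h4 h5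
  have hk0 : (0 : ℝ) < k := by exact_mod_cast h5
  rw [div_lt_iff₀ hk0] at h3
  rw [div_le_iff₀ hl2] at h4
  have hV := Vf_pos (z k)
  rcases Nat.lt_or_ge (z k) W with h6 | h6
  · have h7 := le_Vf2 (z k)
    have h8 : (0 : ℝ) < (z k : ℝ) + 1 := by positivity
    rw [div_le_iff₀ h8] at h7
    have h9 : (z k : ℝ) ≤ W := by exact_mod_cast h6.le
    calc (1 : ℝ) ≤ Vf (z k) * ((z k : ℝ) + 1) := h7
      _ ≤ Vf (z k) * (k * Real.log 2) := mul_le_mul_of_nonneg_left (by linarith) hV.le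
  · have h7 := hW (z k) h6
    nlinarith

/-- The error term is small. -/
theorem err_small {z : ℕ → ℕ} (hz : Tendsto (fun k : ℕ => Real.log (z k) / k) atTop (𝓝 0)) (s B : ℕ) :
    ∀ᶠ K : ℕ in atTop, 2 * (((z K : ℝ) ^ s + B) * ((z K : ℝ) + 1) ^ 2) ≤ ((2 : ℝ) ^ K) ^ ((1 : ℝ) / 2) := by
  have hl2 : 0 < Real.log 2 := Real.log_pos (by norm_num)
  obtain ⟨δ, hδ⟩ : ∃ δ : ℝ, δ = Real.log 2 / (4 * ((s : ℝ) + 2)) := ⟨_, rfl⟩
  have hδ0 : 0 < δ := by rw [hδ]; positivity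
  have h2 : ∀ᶠ k : ℕ in atTop, Real.log (z k) / k < δ := hz.eventually_lt_const hδ0
  filter_upwards [h2, ev_two (2 * (1 + B) * 2 ^ (s + 2)) 0 (show (0 : ℝ) < 1 / 4 by norm_num), eventually_gt_atTop 0] with K h3 h4 h5
  have hK0 : (0 : ℝ) < K := by exact_mod_cast h5
  rw [div_lt_iff₀ hK0] at h3
  rw [pow_zero, mul_one] at h4
  have e1 : (z K : ℝ) ≤ Real.exp (δ * K) := by
    rcases Nat.eq_zero_or_pos (z K) with h | h
    · rw [h, Nat.cast_zero]
      exact (Real.exp_pos _).le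
    · have h0 : (0 : ℝ) < z K := by exact_mod_cast h
      calc (z K : ℝ) = Real.exp (Real.log (z K)) := (Real.exp_log h0).symm
        _ ≤ Real.exp (δ * K) := Real.exp_le_exp.2 h3.le
  have e2 : (1 : ℝ) ≤ Real.exp (δ * K) := Real.one_le_exp (by positivity)
  have e3 : (z K : ℝ) + 1 ≤ 2 * Real.exp (δ * K) := by linarith
  have e4 : (z K : ℝ) ^ s + B ≤ (1 + B) * ((z K : ℝ) + 1) ^ s := by
    have h0 : (0 : ℝ) ≤ z K := Nat.cast_nonneg _
    have a1 : (z K : ℝ) ^ s ≤ ((z K : ℝ) + 1) ^ s := pow_le_pow_left₀ h0 (by linarith) s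
    have a2 : (1 : ℝ) ≤ ((z K : ℝ) + 1) ^ s := one_le_pow₀ (by linarith)
    have a3 : (0 : ℝ) ≤ B := Nat.cast_nonneg _
    nlinarith
  have e5 : ((z K : ℝ) + 1) ^ (s + 2) ≤ 2 ^ (s + 2) * ((2 : ℝ) ^ K) ^ ((1 : ℝ) / 4) := by
    have a1 : ((z K : ℝ) + 1) ^ (s + 2) ≤ (2 * Real.exp (δ * K)) ^ (s + 2) :=
      pow_le_pow_left₀ (by positivity) e3 _
    refine a1.trans (le_of_eq ?_)
    rw [mul_pow, ← Real.exp_nat_mul, ← Real.rpow_natCast 2 K, ← Real.rpow_mul (by norm_num), Real.rpow_def_of_pos (by norm_num)]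
    congr 2
    rw [hδ]
    push_cast
    field_simp
  have e6 : ((2 : ℝ) ^ K) ^ ((1 : ℝ) / 2) = ((2 : ℝ) ^ K) ^ ((1 : ℝ) / 4) * ((2 : ℝ) ^ K) ^ ((1 : ℝ) / 4) := by
    rw [← Real.rpow_add (by positivity)]
    norm_num
  have e7 : 0 ≤ ((2 : ℝ) ^ K) ^ ((1 : ℝ) / 4) := by positivity
  calc 2 * (((z K : ℝ) ^ s + B) * ((z K : ℝ) + 1) ^ 2)
      ≤ 2 * (((1 + B) * ((z K : ℝ) + 1) ^ s) * ((z K : ℝ) + 1) ^ 2) := by
        refine mul_le_mul_of_nonneg_left (mul_le_mul_of_nonneg_right e4 (by positivity)) (by norm_num)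
    _ = 2 * (1 + B) * ((z K : ℝ) + 1) ^ (s + 2) := by ring
    _ ≤ 2 * (1 + B) * (2 ^ (s + 2) * ((2 : ℝ) ^ K) ^ ((1 : ℝ) / 4)) := mul_le_mul_of_nonneg_left e5 (by positivity)
    _ = (2 * (1 + B) * 2 ^ (s + 2)) * ((2 : ℝ) ^ K) ^ ((1 : ℝ) / 4) := by ring
    _ ≤ ((2 : ℝ) ^ K) ^ ((1 : ℝ) / 4) * ((2 : ℝ) ^ K) ^ ((1 : ℝ) / 4) := mul_le_mul_of_nonneg_right h4 e7
    _ = ((2 : ℝ) ^ K) ^ ((1 : ℝ) / 2) := e6.symm

/-- The densities. -/
theorem dd_eq {n w w' : ℕ} (hn : 1 ≤ n) (hw : w ≤ w') : dd n w w' = Vf w * Vf w' * Sz {0, n} w := by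
  have h1 : Vf w' = Vf w * ∏ p ∈ (Ico w w').filter Nat.Prime, (1 - 1 / (p : ℝ)) := by
    unfold Vf
    rw [← prod_union]
    · congr 1
      rw [← filter_union]
      congr 1
      ext x
      simp only [mem_union, mem_range, mem_Ico]
      omega
    · rw [disjoint_left]
      intro x hx hx'
      rw [mem_filter, mem_range] at hx
      rw [mem_filter, mem_Ico] at hx'
      omega
  have h2 : ({0, n} : Finset ℕ).card = 2 := card_pair (by omega)
  have hV := Vf_pos w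
  have h3 : dd n w w' = de {0, n} w * ∏ p ∈ (Ico w w').filter Nat.Prime, (1 - 1 / (p : ℝ)) := rfl
  rw [Sz_eq, h2, h1, h3]
  field_simp

open Classical in
/-- The count of the fundamental lemma in terms of `Rough`. -/
theorem count_eq {n w w' lo hi : ℕ} (hw : w ≤ w') (hlo : 1 ≤ lo) (hlh : lo ≤ hi) (hhi : hi ≤ n + 1) :
    (Ioc (lo - 1) ((lo - 1) + (hi - lo))).filter (fun m => ∀ p ∈ (range w').filter Nat.Prime, m % p ≠ n % p ∧ (p < w → m % p ≠ 0)) =
      (Ico lo hi).filter (fun a => Rough w a ∧ Rough w' (n - a)) := by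
  ext m
  simp only [mem_filter, mem_Ioc, mem_Ico]
  have hI : (lo - 1 < m ∧ m ≤ (lo - 1) + (hi - lo)) ↔ (lo ≤ m ∧ m < hi) := by omega
  rw [hI]
  refine and_congr_right (fun hm => ?_)
  have hmn : m ≤ n := by omega
  constructor
  · intro h
    refine ⟨fun p hp hpw hd => ?_, fun p hp hpw hd => ?_⟩
    · exact (h p (by simp only [mem_range]; exact ⟨by omega, hp⟩)).2 hpw (Nat.mod_eq_zero_of_dvd hd)
    · exact (h p (by simp only [mem_range]; exact ⟨hpw, hp⟩)).1 ((Nat.modEq_iff_dvd' hmn).2 hd)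
  · rintro ⟨h1, h2⟩ p ⟨hpw, hp⟩
    rw [mem_range] at hpw
    refine ⟨fun he => h2 p hp hpw ((Nat.modEq_iff_dvd' hmn).1 he), fun hw' he => h1 p hp hw' (Nat.dvd_of_mod_eq_zero he)⟩

/-- The value of `pr`. -/
theorem pr_val {z : ℕ → ℕ} {k a : ℕ} (hk : Nat.log 2 a = k) (ha : 1 ≤ a) (hq : 1 ≤ Vf (z k) * (k * Real.log 2)) :
    (Rough (z k) a → pr z a = 1 / (Vf (z k) * Real.log a)) ∧ (¬ Rough (z k) a → pr z a = 0) := by
  have h1 : 2 ^ k ≤ a := by rw [← hk]; exact Nat.pow_log_le_self 2 (by omega)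
  have h2 : a < 2 ^ (k + 1) := by rw [← hk]; exact Nat.lt_pow_succ_log_self (by norm_num) a
  obtain ⟨e1, e2, e3⟩ := log_block h1 h2
  have hV := Vf_pos (z k)
  refine ⟨fun h => ?_, fun h => pr_zero h1 h2 h⟩
  unfold pr
  rw [e1, if_pos h]
  have h3 : 1 ≤ Vf (z k) * Real.log a := hq.trans (mul_le_mul_of_nonneg_left e2 hV.le)
  refine min_eq_right ?_
  rw [div_le_one (by linarith)]
  exact h3

theorem log_small {κ : ℝ} (hκ : 0 < κ) : ∀ᶠ K : ℕ in atTop, Real.log 2 + 4 * Real.log K ≤ κ / 16 * (K * Real.log 2) := by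
  have hl2 : 0 < Real.log 2 := Real.log_pos (by norm_num)
  have h1 := (isLittleO_log_rpow_atTop (show (0 : ℝ) < 1 by norm_num)).bound (show 0 < κ / 128 * Real.log 2 by positivity)
  filter_upwards [hcast.eventually h1, hcast.eventually_ge_atTop (32 / κ), eventually_ge_atTop 1] with K h2 h3 h4
  have hK1 : (1 : ℝ) ≤ K := by exact_mod_cast h4
  rw [Real.norm_of_nonneg (Real.log_nonneg hK1), Real.rpow_one, Real.norm_of_nonneg (by linarith)] at h2
  rw [div_le_iff₀ hκ] at h3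
  nlinarith

theorem pow_small4 : ∀ᶠ K : ℕ in atTop, K ^ 4 * 2 ≤ 2 ^ (K / 2) := by
  have h1 := ev_two 4 4 (show (0 : ℝ) < 1 / 2 by norm_num)
  filter_upwards [h1] with K hK
  have e1 : ((2 : ℝ) ^ K) ^ ((1 : ℝ) / 2) ≤ 2 * 2 ^ (K / 2) := by
    have a1 : ((2 : ℝ) ^ K) ^ ((1 : ℝ) / 2) = (2 : ℝ) ^ ((K : ℝ) / 2) := by
      rw [← Real.rpow_natCast 2 K, ← Real.rpow_mul (by norm_num)]
      congr 1
      ring
    have a2 : (2 : ℝ) * 2 ^ (K / 2) = (2 : ℝ) ^ (((K / 2 : ℕ) : ℝ) + 1) := by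
      rw [Real.rpow_add (by norm_num), Real.rpow_one, Real.rpow_natCast]
      ring
    rw [a1, a2]
    refine Real.rpow_le_rpow_of_exponent_le (by norm_num) ?_
    have a3 : K < 2 * (K / 2 + 1) := by omega
    have a4 : (K : ℝ) < 2 * (((K / 2 : ℕ) : ℝ) + 1) := by exact_mod_cast a3
    linarith
  have e2 : (2 : ℝ) * (K ^ 4 * 2) ≤ 2 * 2 ^ (K / 2) := by linarith
  have e3 : ((K : ℝ) ^ 4 * 2) ≤ 2 ^ (K / 2) := by linarith
  exact_mod_cast e3

theorem t_FIB : J_FIB := by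
  classical
  intro hFL z hmono hz κ hκ hκ1
  obtain ⟨s, B, hs, hfl⟩ := hFL (κ / 4) (by positivity)
  obtain ⟨k0, hk0⟩ := eventually_atTop.1 (hqz hz)
  have hl2 : 0 < Real.log 2 := Real.log_pos (by norm_num)
  have hl2' : (1 : ℝ) / 2 < Real.log 2 := by have := Real.log_two_gt_d9; linarith
  filter_upwards [err_small hz s B, log_small hκ, pow_small4, eventually_ge_atTop (2 * k0), eventually_ge_atTop 4] with K herr hlog hp4 hKk0 hK4
  intro n hn1 hn2 i j lo hi hlh hlo hhi hij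
  have hSz0 : 0 ≤ Sz {0, n} (z i) := Sz_nonneg _ _
  have hpow0 : 0 ≤ ((2 : ℝ) ^ K) ^ ((1 : ℝ) / 2) := by positivity
  rcases Nat.eq_or_lt_of_le hlh with heq | hlt
  · subst heq
    simp only [Ico_self, sum_empty, sub_self, zero_mul, zero_div, mul_zero, abs_zero, zero_add]
    exact hpow0
  have hK4' : (4 : ℝ) ≤ K := by exact_mod_cast hK4
  have hlo1 : 1 ≤ lo := by
    rcases Nat.eq_zero_or_pos lo with h | h
    · subst h
      have : 0 < 2 ^ K := by positivity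
      omega
    · exact h
  have hlo_mem : lo ∈ Ico lo hi := mem_Ico.2 ⟨le_rfl, hlt⟩
  obtain ⟨hi1, hj1⟩ := hij lo hlo_mem
  have hi2 : lo < 2 ^ (i + 1) := by rw [← hi1]; exact Nat.lt_pow_succ_log_self (by norm_num) lo
  have hKi : K ≤ 2 * i := by
    by_contra hcon
    have a1 : 2 ^ K < 2 ^ (i + 1) * K ^ 4 := lt_of_le_of_lt hlo (Nat.mul_lt_mul_of_pos_right hi2 (by positivity))
    have a2 : 2 ^ (i + 1) * K ^ 4 ≤ 2 ^ i * 2 ^ (K / 2) := by
      calc 2 ^ (i + 1) * K ^ 4 = 2 ^ i * (K ^ 4 * 2) := by ring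
        _ ≤ 2 ^ i * 2 ^ (K / 2) := Nat.mul_le_mul_left _ hp4
    have a3 : 2 ^ i * 2 ^ (K / 2) ≤ 2 ^ K := by
      rw [← pow_add]
      exact Nat.pow_le_pow_right (by norm_num) (by omega)
    omega
  have hij' : i ≤ j := by
    rw [← hi1, ← hj1]
    exact Nat.log_mono_right (by omega)
  have hjK : j ≤ K := by
    rw [← hj1]
    have : Nat.log 2 (n - lo) ≤ Nat.log 2 n := Nat.log_mono_right (by omega)
    refine this.trans (le_of_eq ?_)
    exact Nat.log_eq_of_pow_le_of_lt_pow hn1 hn2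
  have hqi := hk0 i (by omega)
  have hqj := hk0 j (by omega)
  have hzij : z i ≤ z j := hmono hij'
  have hzjK : z j ≤ z K := hmono hjK
  have hVi := Vf_pos (z i)
  have hVj := Vf_pos (z j)
  have hn0 : 1 ≤ n := le_trans Nat.one_le_two_pow hn1
  obtain ⟨hnK, hL1, hL2⟩ := log_block hn1 hn2
  obtain ⟨L, hL⟩ : ∃ L, L = Real.log (n : ℝ) := ⟨_, rfl⟩
  rw [← hL] at hL1 hL2 ⊢
  have hLpos : 1 ≤ L := by nlinarith
  obtain ⟨c, hc⟩ : ∃ c, c = 1 / (Vf (z i) * Vf (z j)) := ⟨_, rfl⟩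
  have hc0 : 0 < c := by rw [hc]; positivity
  obtain ⟨N, hN⟩ : ∃ N : ℝ, N = (((Ico lo hi).filter (fun a => Rough (z i) a ∧ Rough (z j) (n - a))).card : ℝ) := ⟨_, rfl⟩
  -- the logarithms
  have hlogs : ∀ a ∈ Ico lo hi, L - κ / 16 * L ≤ Real.log a ∧ Real.log a ≤ L ∧ L - κ / 16 * L ≤ Real.log ((n - a : ℕ) : ℝ) ∧
      Real.log ((n - a : ℕ) : ℝ) ≤ L := by
    intro a ha
    rw [mem_Ico] at ha
    have ha0 : (0 : ℝ) < a := by exact_mod_cast (by omega : 0 < a)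
    have hna : a ≤ n - a := by omega
    have hna' : (a : ℝ) ≤ ((n - a : ℕ) : ℝ) := by exact_mod_cast hna
    have hna2 : ((n - a : ℕ) : ℝ) ≤ n := by exact_mod_cast Nat.sub_le n a
    have han : (a : ℝ) ≤ n := by exact_mod_cast (by omega : a ≤ n)
    have h1 : (K : ℝ) * Real.log 2 - 4 * Real.log K ≤ Real.log a := by
      have b1 : ((2 : ℝ) ^ K) ≤ a * (K : ℝ) ^ 4 := by
        have : 2 ^ K ≤ a * K ^ 4 := hlo.trans (Nat.mul_le_mul_right _ ha.1)
        exact_mod_cast this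
      have b2 := Real.log_le_log (by positivity) b1
      rw [Real.log_pow, Real.log_mul ha0.ne' (by positivity), Real.log_pow] at b2
      push_cast at b2
      linarith
    have h2 : L - κ / 16 * L ≤ Real.log a := by nlinarith
    refine ⟨h2, ?_, h2.trans (Real.log_le_log ha0 hna'), ?_⟩
    · rw [hL]; exact Real.log_le_log ha0 han
    · rw [hL]; exact Real.log_le_log (lt_of_lt_of_le ha0 hna') hna2
  -- pointwise bounds
  have hpt : ∀ a ∈ Ico lo hi, (if Rough (z i) a ∧ Rough (z j) (n - a) then c / L ^ 2 else 0) ≤ pr z a * pr z (n - a) ∧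
      pr z a * pr z (n - a) ≤ (if Rough (z i) a ∧ Rough (z j) (n - a) then (1 + κ / 4) * (c / L ^ 2) else 0) := by
    intro a ha
    obtain ⟨l1, l2, l3, l4⟩ := hlogs a ha
    obtain ⟨k1, k2⟩ := hij a ha
    rw [mem_Ico] at ha
    obtain ⟨p1, p2⟩ := pr_val k1 (by omega) hqi
    obtain ⟨p3, p4⟩ := pr_val k2 (by omega) hqj
    by_cases h : Rough (z i) a ∧ Rough (z j) (n - a)
    · rw [if_pos h, if_pos h, p1 h.1, p3 h.2]
      have hx : 0 < L - κ / 16 * L := by nlinarith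
      have hla : 0 < Real.log a := by linarith
      have hlb : 0 < Real.log ((n - a : ℕ) : ℝ) := by linarith
      have e1 : 1 / (Vf (z i) * Real.log a) * (1 / (Vf (z j) * Real.log ((n - a : ℕ) : ℝ))) = c / (Real.log a * Real.log ((n - a : ℕ) : ℝ)) := by
        rw [hc]
        field_simp
      rw [e1]
      constructor
      · refine div_le_div_of_nonneg_left hc0.le (by positivity) ?_
        rw [sq]
        exact mul_le_mul l2 l4 hlb.le (by linarith)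
      · rw [mul_div_assoc', div_le_div_iff₀ (by positivity) (by positivity)]
        have e2 : (L - κ / 16 * L) ^ 2 ≤ Real.log a * Real.log ((n - a : ℕ) : ℝ) := by
          rw [sq]
          exact mul_le_mul l1 l3 hx.le hla.le
        have e3 : L ^ 2 ≤ (1 + κ / 4) * (L - κ / 16 * L) ^ 2 := by
          have e4 : (1 + κ / 4) * (L - κ / 16 * L) ^ 2 - L ^ 2 = L ^ 2 * ((1 + κ / 4) * (1 - κ / 16) ^ 2 - 1) := by ring
          have e5 : 0 ≤ (1 + κ / 4) * (1 - κ / 16) ^ 2 - 1 := by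
            have e51 : (1 + κ / 4) * (1 - κ / 16) ^ 2 - 1 = κ * (1 / 8 - κ / 32) + κ ^ 2 / 256 + κ ^ 3 / 1024 := by ring
            have e52 : 0 ≤ κ * (1 / 8 - κ / 32) := mul_nonneg hκ.le (by linarith)
            have e53 : 0 ≤ κ ^ 2 / 256 := by positivity
            have e54 : 0 ≤ κ ^ 3 / 1024 := by positivity
            rw [e51]
            linarith
          have := mul_nonneg (sq_nonneg L) e5
          linarith
        have e6 : L ^ 2 ≤ (1 + κ / 4) * (Real.log a * Real.log ((n - a : ℕ) : ℝ)) :=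
          e3.trans (mul_le_mul_of_nonneg_left e2 (by linarith))
        nlinarith
    · rw [if_neg h, if_neg h]
      have h' : pr z a * pr z (n - a) = 0 := by
        by_cases h2 : Rough (z i) a
        · rw [p4 (fun h3 => h ⟨h2, h3⟩), mul_zero]
        · rw [p2 h2, zero_mul]
      rw [h']
      exact ⟨le_rfl, le_rfl⟩
  have hsum1 : N * (c / L ^ 2) ≤ ∑ a ∈ Ico lo hi, pr z a * pr z (n - a) := by
    have := sum_le_sum (fun a ha => (hpt a ha).1)
    rw [← sum_filter, sum_const, nsmul_eq_mul, ← hN] at this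
    exact this
  have hsum2 : ∑ a ∈ Ico lo hi, pr z a * pr z (n - a) ≤ N * ((1 + κ / 4) * (c / L ^ 2)) := by
    have := sum_le_sum (fun a ha => (hpt a ha).2)
    rw [← sum_filter, sum_const, nsmul_eq_mul, ← hN] at this
    exact this
  -- the fundamental lemma
  have hfl' := hfl (z i) (z j) hzij n (lo - 1) (hi - lo)
  have hcard : (((Ioc (lo - 1) ((lo - 1) + (hi - lo))).filter (fun m => ∀ p ∈ (range (z j)).filter Nat.Prime, m % p ≠ n % p ∧ (p < z i → m % p ≠ 0))).card : ℝ) = N := by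
    rw [hN, count_eq hzij hlo1 hlh (by omega)]
  have hfl2 : |N - ((hi - lo : ℕ) : ℝ) * dd n (z i) (z j)| ≤ κ / 4 * (((hi - lo : ℕ) : ℝ) * dd n (z i) (z j)) + ((z j : ℝ) ^ s + B) := by
    rw [← hcard]
    convert hfl' using 3
  rw [dd_eq hn0 hzij, Nat.cast_sub hlh] at hfl2
  obtain ⟨M, hM⟩ : ∃ M, M = ((hi : ℝ) - lo) * Sz {0, n} (z i) / L ^ 2 := ⟨_, rfl⟩
  have hM0 : 0 ≤ M := by
    rw [hM]
    have : (lo : ℝ) ≤ hi := by exact_mod_cast hlh
    have : 0 ≤ (hi : ℝ) - lo := by linarith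
    positivity
  have hL2pos : 0 < L ^ 2 := by positivity
  have hE : ((z j : ℝ) ^ s + B) * (c / L ^ 2) ≤ ((2 : ℝ) ^ K) ^ ((1 : ℝ) / 2) / 2 := by
    have a1 : c ≤ ((z K : ℝ) + 1) ^ 2 := by
      rw [hc]
      have b1 : ∀ w : ℕ, w ≤ z K → 1 / Vf w ≤ (z K : ℝ) + 1 := by
        intro w hw
        have c1 := le_Vf2 w
        have c2 : (w : ℝ) ≤ z K := by exact_mod_cast hw
        rw [div_le_iff₀ (by positivity)] at c1
        rw [div_le_iff₀ (Vf_pos w)]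
        have := Vf_pos w
        nlinarith
      have b2 := b1 (z i) (hzij.trans hzjK)
      have b3 := b1 (z j) hzjK
      calc 1 / (Vf (z i) * Vf (z j)) = (1 / Vf (z i)) * (1 / Vf (z j)) := by field_simp
        _ ≤ ((z K : ℝ) + 1) * ((z K : ℝ) + 1) := mul_le_mul b2 b3 (by positivity) (by positivity)
        _ = ((z K : ℝ) + 1) ^ 2 := by ring
    have a2 : c / L ^ 2 ≤ ((z K : ℝ) + 1) ^ 2 := (div_le_self hc0.le (by nlinarith)).trans a1
    have a3 : (z j : ℝ) ^ s + B ≤ (z K : ℝ) ^ s + B := by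
      have : (z j : ℝ) ≤ z K := by exact_mod_cast hzjK
      have := pow_le_pow_left₀ (Nat.cast_nonneg _) this s
      linarith
    have a4 : ((z j : ℝ) ^ s + B) * (c / L ^ 2) ≤ ((z K : ℝ) ^ s + B) * ((z K : ℝ) + 1) ^ 2 :=
      mul_le_mul a3 a2 (by positivity) (by positivity)
    linarith
  have hkey : |N * (c / L ^ 2) - M| ≤ κ / 4 * M + ((2 : ℝ) ^ K) ^ ((1 : ℝ) / 2) / 2 := by
    have e1 : N * (c / L ^ 2) - M = (N - ((hi : ℝ) - lo) * (Vf (z i) * Vf (z j) * Sz {0, n} (z i))) * (c / L ^ 2) := by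
      rw [hM, hc]
      field_simp
    have e2 : κ / 4 * M = κ / 4 * (((hi : ℝ) - lo) * (Vf (z i) * Vf (z j) * Sz {0, n} (z i))) * (c / L ^ 2) := by
      rw [hM, hc]
      field_simp
    have hcL : 0 < c / L ^ 2 := by positivity
    rw [e1, abs_mul, abs_of_pos hcL, e2]
    have := mul_le_mul_of_nonneg_right hfl2 hcL.le
    rw [add_mul] at this
    linarith
  rw [← hM]
  rw [abs_le] at hkey ⊢
  obtain ⟨k1, k2⟩ := hkey
  constructor
  · nlinarith
  · have e1 : N * ((1 + κ / 4) * (c / L ^ 2)) = (1 + κ / 4) * (N * (c / L ^ 2)) := by ring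
    rw [e1] at hsum2
    have e2 : N * (c / L ^ 2) ≤ M + κ / 4 * M + ((2 : ℝ) ^ K) ^ ((1 : ℝ) / 2) / 2 := by linarith
    have e3 : (1 + κ / 4) * (N * (c / L ^ 2)) ≤ (1 + κ / 4) * (M + κ / 4 * M + ((2 : ℝ) ^ K) ^ ((1 : ℝ) / 2) / 2) :=
      mul_le_mul_of_nonneg_left e2 (by linarith)
    have e4 : (1 + κ / 4) * (M + κ / 4 * M + ((2 : ℝ) ^ K) ^ ((1 : ℝ) / 2) / 2) ≤ M + κ * M + ((2 : ℝ) ^ K) ^ ((1 : ℝ) / 2) := by
      have f1 : 0 ≤ κ * M := by positivity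
      have f2 : κ * (κ * M) ≤ 1 * (κ * M) := mul_le_mul_of_nonneg_right hκ1 f1
      nlinarith
    linarith

end Pool.Agent.Q84.GL
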